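import Pool.Agent.MP_943ae2_gt.Rc.Final

open scoped Manifold ContDiff
open Set MeasureTheory Pool.Agent.MP_943ae2_gt

namespace Pool.Agent.Results.MP_943ae2_gt.CubicAreaRecurrent

/-- A connected properly immersed minimal surface in `ℝ³` which, outside a compact set, splits into
a part above a negative half-catenoid and a part below a positive half-catenoid is recurrent as soon
as `∑ k² / (1 + area (M ∩ B k))` diverges. -/
theorem result (M : Type) [TopologicalSpace M] [ChartedSpace E2 M] [IsManifold (𝓡 2) ∞ M]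
    [T2Space M] [ConnectedSpace M] [MeasurableSpace M] [BorelSpace M] (f : M → E3)
    (hf : IsMinimal f) (hp : ∀ K, IsCompact K → IsCompact (f ⁻¹' K))
    (U V : Set M) (C : ℝ) (hU : IsOpen U) (hV : IsOpen V) (hUV : Disjoint U V)
    (hK : IsCompact (U ∪ V)ᶜ)
    (h1 : ∀ p ∈ U, -C * Real.log (2 + f p 0 ^ 2 + f p 1 ^ 2) ≤ f p 2)
    (h2 : ∀ p ∈ V, f p 2 ≤ C * Real.log (2 + f p 0 ^ 2 + f p 1 ^ 2))
    (μ : Measure M) (hμ : IsArea f μ)
    (hs : ¬ Summable fun k : ℕ => (k : ℝ) ^ 2 / (1 + (μ (f ⁻¹' Metric.ball 0 k)).toReal))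
    (u : M → ℝ) (hu : ContMDiff (𝓡 2) 𝓘(ℝ, ℝ) ∞ u) (h0 : ∀ p, 0 < u p)
    (hl : ∀ p, lapBel f u p ≤ 0) (p q : M) : u p = u q :=
  rc_final f hf hp U V C hU hV hUV hK h1 h2 μ hμ hs u hu h0 hl p q

end Pool.Agent.Results.MP_943ae2_gt.CubicAreaRecurrent
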