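import Pool.Agent.Mg.F943ae2.Gd5ec10

open scoped Manifold ContDiff
open Set Pool.Agent.MP_943ae2_gt

namespace Pool.Agent.Results.MP_943ae2_gt.Transient

/-- A connected properly embedded minimal surface in `ℝ³` with at least two ends that carries a
nonconstant positive superharmonic function, hence is transient. -/
theorem result : ∃ (M : Type) (_ : TopologicalSpace M) (_ : ChartedSpace E2 M)
    (_ : IsManifold (𝓡 2) ∞ M) (_ : T2Space M) (_ : ConnectedSpace M) (f : M → E3),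
    IsMinimal f ∧ Topology.IsEmbedding f ∧ (∀ K, IsCompact K → IsCompact (f ⁻¹' K)) ∧ TwoEnds M ∧
    ∃ u : M → ℝ, ContMDiff (𝓡 2) 𝓘(ℝ, ℝ) ∞ u ∧ (∀ p, 0 < u p) ∧ (∀ p, lapBel f u p ≤ 0) ∧
      ∃ p q, u p ≠ u q :=
  final

end Pool.Agent.Results.MP_943ae2_gt.Transient
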